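import Pool.Agent.Run7.h527.TP.Ex
import Pool.Agent.Results.MP_f2148a_nt.AdditiveValues

/-!
# Hall's conjecture for `k` near aliquot sums, cototients and arithmetic derivatives

Let `g(m)` be the sum of the proper divisors of `m`, the cototient `m - φ(m)`, the arithmetic derivative `m'` (with `p' = 1`
for primes and Leibniz' rule), or any positive combination `α m + β f(m)` with `f = σ`, `φ` or the arithmetic derivative. Let
`G` have steps bounded below by a positive constant and growth at most `v^d`. Let `C > 0`, `A ≥ 2`, `κ ≥ 0` and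
`d (A / 4 + 1 / 6) + κ < τ ≤ 1`. For all `m ≤ N` which have two prime factors `p ≠ q`, not dividing `m / (p q) ≥ 2`, with
`p q ≥ m^τ`, but at most `N^(1 - η)` of them, for NONE of the integers `k ≠ 0` with `||k| - G (g m)| ≤ g(m)^κ` the equation
`y ^ 2 = x ^ 3 + k` has an integral solution with `|x| ≤ |k| ^ A` and `max (|x|, |y|) > C |k| ^ 3`.

Proof. Write `m = k' p q`. Then `g(m) = a p q + b (p + q) + c` with integers `a ≠ 0`, `b`, `c` which depend on `k'` only, and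
`(a p + b) (a q + b) = a g(m) + b² - a c`. So for given `k' ≤ N^(1 - τ)` every value is taken for at most `N^ε` pairs `p`, `q`
(the tool `Run7/h527/TP`), and the exceptional `k` are few by the starting theorem `SparseViolations`.
-/

set_option autoImplicit false

namespace Pool.Agent.Results.MP_f2148a_nt.AliquotSums

open Pool.Agent.N733.TG (Expanding expanding_pow)
open Pool.Agent.Results.MP_f2148a_nt.AdditiveValues (HallUpTo fin_aux)
open Run7.h527.TP (Bil Two good aliquot cototient deriv sig comb)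

/-- **Mordell's equation near the values of functions which are bilinear in two large primes.** Let `g` be of the class `Bil`,
let `G` have steps `≥ a > 0` and growth at most `v^d`. Let `C > 0`, `A ≥ 2`, `κ ≥ 0` and `d (A / 4 + 1 / 6) + κ < τ ≤ 1`. There
is `η > 0` such that for all large `N`, for all `m ≤ N` with `Two τ m` but at most `N^(1 - η)`, EVERY integer `k ≠ 0` with
`||k| - G (g m)| ≤ g(m)^κ` is such that all integral solutions of `y ^ 2 = x ^ 3 + k` with `|x| ≤ |k| ^ A` satisfy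
`max (|x|, |y|) ≤ C |k| ^ 3`. The sum of the proper divisors, the cototient, the arithmetic derivative and their positive
combinations with the identity are examples of such functions `g`. -/
theorem result :
    (∀ g : ℕ → ℕ, Bil g → ∀ (G : ℕ → ℝ) (d : ℝ), Expanding G d → ∀ C A κ τ : ℝ, 0 < C → 2 ≤ A → 0 ≤ κ →
      d * (A / 4 + 1 / 6) + κ < τ → τ ≤ 1 → ∃ η : ℝ, 0 < η ∧ ∃ N₀ : ℕ, ∀ N : ℕ, N₀ ≤ N →
      ({m : ℕ | 1 ≤ m ∧ m ≤ N ∧ Two τ m ∧ ¬ ∀ k : ℤ, k ≠ 0 → |(|k| : ℝ) - G (g m)| ≤ (g m : ℝ) ^ κ →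
        HallUpTo C A k}.ncard : ℝ) ≤ (N : ℝ) ^ (1 - η)) ∧
    (Bil aliquot ∧ Bil cototient ∧ Bil deriv ∧
      (∀ α β : ℤ, (∀ m : ℕ, 2 ≤ m → 0 < α * m + β * sig m) → Bil (comb α β sig)) ∧
      (∀ α β : ℤ, (∀ m : ℕ, 2 ≤ m → 0 < α * m + β * Nat.totient m) → Bil (comb α β Nat.totient)) ∧
      ∀ α β : ℤ, (∀ m : ℕ, 2 ≤ m → 0 < α * m + β * deriv m) → Bil (comb α β deriv)) ∧
    ∀ α d : ℝ, 0 < α → 1 ≤ d → Expanding (fun v => α * (v : ℝ) ^ d) d := by
  refine ⟨fun g hg G d hG C A κ τ hC hA hκ h1 hτ => ?_, Run7.h527.TP.examples, fun α d hα hd => expanding_pow hα hd⟩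
  refine good (fun k : ℤ => k ≠ 0) (HallUpTo C A) (fun k : ℤ => |(k : ℝ)|) hg hG (s := A / 4 + 1 / 6) (κ := κ)
    (by linarith) hκ h1 hτ (fun ε hε => ?_)
  obtain ⟨M, hM⟩ := Pool.Agent.Results.MP_f2148a_nt.SparseViolations.result C A ε hC hA hε
  refine ⟨M, fun X hX => ?_⟩
  have hfin : ∀ P : ℤ → Prop, {k : ℤ | k ≠ 0 ∧ |(k : ℝ)| ≤ X ∧ P k}.Finite := by
    intro P
    apply (fin_aux ⌊X⌋₊ P).subset
    rintro k ⟨h1, h2, h3⟩
    refine ⟨h1, ?_, h3⟩
    have h4 : k.natAbs ≤ ⌊X⌋₊ := by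
      apply Nat.le_floor
      rw [Nat.cast_natAbs]
      push_cast
      exact h2
    have h5 : ((k.natAbs : ℕ) : ℝ) ≤ (⌊X⌋₊ : ℕ) := by exact_mod_cast h4
    rw [Nat.cast_natAbs] at h5
    push_cast at h5
    exact h5
  have hsub : {k : ℤ | (k ≠ 0 ∧ ¬ HallUpTo C A k) ∧ |(k : ℝ)| ≤ X} ⊆
      {k : ℤ | k ≠ 0 ∧ |(k : ℝ)| ≤ X ∧ ∃ x y : ℤ, y ^ 2 = x ^ 3 + k ∧
        C * |(k : ℝ)| ^ 3 < max |(x : ℝ)| |(y : ℝ)| ∧ |(x : ℝ)| ≤ X ^ A} := by
    rintro k ⟨⟨h3, h2⟩, h5⟩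
    unfold HallUpTo at h2
    push Not at h2
    obtain ⟨x, y, e1, e2, e3⟩ := h2
    exact ⟨h3, h5, x, y, e1, e3, e2.trans (Real.rpow_le_rpow (abs_nonneg _) h5 (by linarith))⟩
  refine ⟨(hfin _).subset hsub, le_trans ?_ (hM X hX)⟩
  exact_mod_cast Set.ncard_le_ncard hsub (hfin _)

end Pool.Agent.Results.MP_f2148a_nt.AliquotSums
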