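import Mathlib
import Pool.Agent.Run7.h28.HK.Disc

/-!
# Hall's inequality when one coordinate is a sparse sum of algebraic S-units and the other one is arbitrary

Let `S` be a finite set of primes, `D` and `n` natural numbers, `B` and `δ, ε > 0` real numbers. There is a
constant `C` such that `max (|x|, |y|) ≤ (C M) ^ C |k| ^ (3 + ε)` for all integral points `(x, y)` of all
curves `y ^ 2 = x ^ 3 + k`, `k ≠ 0`, for which there is a number field `L ⊆ ℂ` of discriminant at most `D`
such that

* `x` and `y` are sums of `n` `S`-units of `L` with coefficients of height at most `M`, without any condition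
  on the terms, or
* `x` is such a sum, with a gap after its leading term, and `y` is ARBITRARY, or
* `y` is such a sum, with a gap after its leading term, and `x` is ARBITRARY.

So for instance all integral points one coordinate of which is a Fibonacci number, or a term of any recurrence
sequence with a dominating root (simple, with constant coefficient), satisfy
`max (|x|, |y|) ≤ C (ε) |k| ^ (3 + ε)`, and because of the dependence on `M` also those with a coordinate in the
window of length `H ^ θ`, `θ = θ (ε) > 0`, around such a number of size `H`.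

The starting theorem `SparseHall` treats pairs of integers with few nonzero digits, without `ε`; over real
quadratic fields the exponent 3 cannot be improved: Danilov's examples, with `|k| ~ c |x| ^ (1/2)`, are of the
form considered here. One constant for all fields of bounded discriminant: Hermite's theorem.
-/

set_option autoImplicit false

open Height NumberField IsDedekindDomain

namespace Pool.Agent.Results.MP_f2148a_nt.OneSparseCoordinate

/-- The finite places of `L` above the positive integers in `S`. -/
def primesAbove (L : Type) [Field L] [NumberField L] (S : Finset ℕ) :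
    Set (HeightOneSpectrum (𝓞 L)) :=
  {w | ∃ p ∈ S, p ≠ 0 ∧ ((p : ℕ) : 𝓞 L) ∈ w.asIdeal}

/-- The integer `z` is a sum of `k` `S`-units of `L` with coefficients in `L` of height at most `M`.
There is no condition on the sizes and heights of the terms. -/
def IsSum (L : IntermediateField ℚ ℂ) [NumberField L] (S : Finset ℕ) (k : ℕ) (M : ℝ) (z : ℤ) :
    Prop :=
  ∃ (u : Fin k → Lˣ) (a : Fin k → L), (∀ j, u j ∈ (primesAbove L S).unit L) ∧
    (∀ j, mulHeight₁ (a j) ≤ M) ∧ (z : L) = ∑ j, a j * (u j : L)

/-- The integer `z` is the sum of an `S`-unit `v` of `L` and of `k` further `S`-units of `L` with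
coefficients in `L` of height at most `M`, where `H (v) ≤ M (|z| + 1) ^ B`, and there is a gap after the
leading term: `|z - v| ≤ M |z| ^ (1 - δ)`. -/
def HasGap (L : IntermediateField ℚ ℂ) [NumberField L] (S : Finset ℕ) (k : ℕ) (B δ M : ℝ) (z : ℤ) :
    Prop :=
  ∃ (v : Lˣ) (u : Fin k → Lˣ) (a : Fin k → L), v ∈ (primesAbove L S).unit L ∧
    (∀ j, u j ∈ (primesAbove L S).unit L) ∧ (∀ j, mulHeight₁ (a j) ≤ M) ∧
    (z : L) = (v : L) + ∑ j, a j * (u j : L) ∧ mulHeight₁ (v : L) ≤ M * (|(z : ℝ)| + 1) ^ B ∧
    ‖(((z : L) - (v : L) : L) : ℂ)‖ ≤ M * |(z : ℝ)| ^ (1 - δ)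

/-- **Main theorem.** -/
theorem result (S : Finset ℕ) (D n : ℕ) (B δ ε : ℝ) (hδ : 0 < δ) (hε : 0 < ε) :
    ∃ C : ℝ, 0 < C ∧ ∀ (L : IntermediateField ℚ ℂ) [NumberField L], |discr L| ≤ D →
      ∀ (M : ℝ) (k x y : ℤ), 1 ≤ M → k ≠ 0 → y ^ 2 = x ^ 3 + k →
      ((IsSum L S n M x ∧ IsSum L S n M y) ∨ HasGap L S n B δ M x ∨ HasGap L S n B δ M y) →
      max |(x : ℝ)| |(y : ℝ)| ≤ (C * M) ^ C * |(k : ℝ)| ^ (3 + ε) := by
  obtain ⟨C, hC, h⟩ := Pool.Agent.Run7.h28.HK.hallBound S D n B δ ε hδ hε
  refine ⟨C, by linarith, fun L _ hL M d x y hM hd hxy hyp => ?_⟩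
  obtain ⟨h1, h2⟩ := h L hL M d x y hM hd hxy hyp
  have hd1 : 1 ≤ |(d : ℝ)| := by
    have : 1 ≤ |d| := Int.one_le_abs hd
    exact_mod_cast this
  have hCM : 0 ≤ (C * M) ^ C := by positivity
  refine max_le (h1.trans ?_) h2
  exact mul_le_mul_of_nonneg_left (Real.rpow_le_rpow_of_exponent_le hd1 (by linarith)) hCM

end Pool.Agent.Results.MP_f2148a_nt.OneSparseCoordinate
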