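import Pool.Agent.Run7.h983.Y3
import Pool.Agent.Run7.h983.Y6

set_option autoImplicit false

/-!
# Hall's inequality for recursive solutions of Mordell's equations `y ^ 2 = x ^ 3 + D(m)`

Let `D(s)` be a polynomial with integral coefficients, `D ≠ 0`, and let `x(m)`, `y(m)` be P-recursive
sequences of integers (they satisfy nontrivial linear recurrences with `t + 1` terms and polynomial
coefficients, for example sums of products of polynomials, exponentials, factorials and binomial
coefficients) with `y(m) ^ 2 = x(m) ^ 3 + D(m)` for all large `m`.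

(1) There are at most `L(t)` pairs of polynomials `u, v` with `v ^ 2 = u ^ 3 + D` such that on each class
modulo some `T` one has `(x(m), y(m)) = (u(m), v(m))` for one of them and all large `m`.  The number
`L(t)` does not depend on `D` or its degree, nor on the sequences.

(2) If `D` is not constant then `|x(m)| m ^ 2 ≤ K |D(m)| ^ 2` and `|y(m)| m ^ 3 ≤ K |D(m)| ^ 3` for large
`m`.  This is Hall's inequality with smaller exponents (`3 - 3 / deg D` in place of `3`), which are
best possible for the degrees for which Davenport's inequality is an equality.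

(3) In particular `max (|x(m)|, |y(m)|) ≤ C |D(m)| ^ 3` for each `C > 0` and all `m ≥ N(C)`: Hall's
inequality holds with every constant, up to finitely many `m`.

(4) If `D` is constant then the sequences take only finitely many values.

Proof.  The generic member of the family is an elliptic curve over the algebraic closure of `ℚ(s)`,
without rational curves (four members of a pencil of polynomials whose product is a square), so the
theorem `fam_all` on P-recursive sequences of points on the members of a family (difference Galois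
theory, the uniform bound for orbits of the starting files, Hilbert's irreducibility theorem on runs of
integers) gives at most `L(t)` sections, and sections with integral values are polynomials.  For
polynomials the bound is Davenport's inequality.
-/

namespace Pool.Agent.Results.MP_f2148a_nt.RecursiveFamilies

open Polynomial Pool.Agent.Run7.h983

/-- The sequence of integers `s` satisfies a nontrivial linear recurrence with `t + 1` terms and
polynomial coefficients. -/
def RecOrder (t : ℕ) (s : ℕ → ℤ) : Prop :=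
  ∃ p : Fin (t + 1) → ℤ[X], p ≠ 0 ∧
    ∀ m : ℕ, ∑ i : Fin (t + 1), (p i).eval (m : ℤ) * s (m + i) = 0

/-- The polynomial with rational coefficients given by a polynomial with integral coefficients. -/
noncomputable def rat (A : ℤ[X]) : ℚ[X] := A.map (Int.castRingHom ℚ)

theorem rat_inj : Function.Injective (Polynomial.map (Int.castRingHom ℚ)) :=
  Polynomial.map_injective _ Int.cast_injective

theorem rat_eval (A : ℤ[X]) (m : ℕ) : (rat A).eval (m : ℚ) = ((A.eval (m : ℤ) : ℤ) : ℚ) := by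
  have h4 := hom_eval₂ A (RingHom.id ℤ) (Int.castRingHom ℚ) (m : ℤ)
  rw [eval₂_id, RingHom.comp_id] at h4
  have h5 : Int.castRingHom ℚ (m : ℤ) = (m : ℚ) := by simp
  rw [h5] at h4
  unfold rat
  rw [eval_map, ← h4]
  rfl

theorem rat_deg (A : ℤ[X]) : (rat A).natDegree = A.natDegree :=
  natDegree_map_eq_of_injective Int.cast_injective A

theorem rec_rat {t : ℕ} {s : ℕ → ℤ} (h : RecOrder t s) : ∃ p : Fin (t + 1) → ℚ[X], p ≠ 0 ∧
    ∀ m : ℕ, ∑ i : Fin (t + 1), (p i).eval (m : ℚ) * (s (m + i) : ℚ) = 0 := by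
  obtain ⟨p, hp, hs⟩ := h
  refine ⟨fun i => rat (p i), fun h0 => hp ?_, fun m => ?_⟩
  · funext i
    have h1 := congrFun h0 i
    apply rat_inj
    rw [Pi.zero_apply, Polynomial.map_zero]
    exact h1
  · have h1 := congrArg (fun z : ℤ => (z : ℚ)) (hs m)
    simp only [Int.cast_sum, Int.cast_mul, Int.cast_zero] at h1
    rw [← h1]
    refine Finset.sum_congr rfl fun i _ => ?_
    rw [rat_eval]

/-- a bound on the residue classes is a bound -/
theorem glue (T : ℕ) (hT : 1 ≤ T) (f g : ℕ → ℝ) (hg : ∀ m, 0 ≤ g m)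
    (h : ∀ a : ℕ, ∃ K : ℝ, 0 < K ∧ ∃ N : ℕ, ∀ m ≥ N, m % T = a % T → f m ≤ K * g m) :
    ∃ K : ℝ, 0 < K ∧ ∃ N : ℕ, ∀ m ≥ N, f m ≤ K * g m := by
  choose K hK N hN using h
  refine ⟨∑ a ∈ Finset.range T, K a + 1, ?_, (Finset.range T).sup N, fun m hm => ?_⟩
  · have : 0 ≤ ∑ a ∈ Finset.range T, K a := Finset.sum_nonneg fun a _ => (hK a).le
    linarith
  · have hmT : m % T ∈ Finset.range T := Finset.mem_range.2 (Nat.mod_lt _ (by omega))
    have h2 := hN (m % T) m (le_trans (Finset.le_sup (f := N) hmT) hm) (by rw [Nat.mod_mod])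
    have h3 : K (m % T) ≤ ∑ a ∈ Finset.range T, K a + 1 := by
      have := Finset.single_le_sum (fun a _ => (hK a).le) hmT
      linarith
    exact h2.trans (mul_le_mul_of_nonneg_right h3 (hg m))

/-- **Theorem.** Hall's inequality for P-recursive solutions of `y ^ 2 = x ^ 3 + D(m)`. -/
theorem result : ∀ t : ℕ, ∃ L : ℕ, ∀ D : ℤ[X], D ≠ 0 →
    ∀ x y : ℕ → ℤ, RecOrder t x → RecOrder t y →
    (∃ N : ℕ, ∀ m ≥ N, y m ^ 2 = x m ^ 3 + D.eval (m : ℤ)) →
    (∃ P : Finset (ℚ[X] × ℚ[X]), P.card ≤ L ∧ (∀ p ∈ P, p.2 ^ 2 = p.1 ^ 3 + rat D) ∧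
      ∃ T : ℕ, 1 ≤ T ∧ ∀ a : ℕ, ∃ p ∈ P, ∃ N : ℕ, ∀ m ≥ N, m % T = a % T →
        (x m : ℚ) = p.1.eval (m : ℚ) ∧ (y m : ℚ) = p.2.eval (m : ℚ)) ∧
    (1 ≤ D.natDegree →
      (∃ K : ℝ, ∃ N : ℕ, ∀ m ≥ N,
        |(x m : ℝ)| * (m : ℝ) ^ 2 ≤ K * |((D.eval (m : ℤ) : ℤ) : ℝ)| ^ 2 ∧
        |(y m : ℝ)| * (m : ℝ) ^ 3 ≤ K * |((D.eval (m : ℤ) : ℤ) : ℝ)| ^ 3) ∧
      ∀ C : ℝ, 0 < C → ∃ N : ℕ, ∀ m ≥ N,
        max |(x m : ℝ)| |(y m : ℝ)| ≤ C * |((D.eval (m : ℤ) : ℤ) : ℝ)| ^ 3) ∧
    (D.natDegree = 0 → (Set.range x).Finite ∧ (Set.range y).Finite) := by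
  intro t
  obtain ⟨L, hL⟩ := Hy.cub_fam t
  refine ⟨L, fun D hD x y hx hy hon => ?_⟩
  have hD' : rat D ≠ 0 := fun h => hD (rat_inj (by
    rw [Polynomial.map_zero]
    exact h))
  obtain ⟨P, hP, hPe, T, hT, hcl⟩ := hL 0 (rat D) (by
    intro h0
    have h1 : 27 * rat D ^ 2 = 0 := by
      linear_combination h0
    rcases mul_eq_zero.1 h1 with h2 | h2
    · norm_num at h2
    · exact hD' (pow_eq_zero_iff (by norm_num) |>.1 h2)) x y (rec_rat hx) (rec_rat hy) (by
    obtain ⟨N, hN⟩ := hon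
    refine ⟨N, fun m hm => ?_⟩
    rw [rat_eval, eval_zero, zero_mul, add_zero]
    exact_mod_cast hN m hm)
  have hPe' : ∀ p ∈ P, p.2 ^ 2 = p.1 ^ 3 + rat D := by
    intro p hp
    rw [hPe p hp]
    ring
  refine ⟨⟨P, hP, hPe', T, hT, hcl⟩, fun hd => ?_, fun hd => ?_⟩
  · have hrDe : ∀ m : ℕ, |(((rat D).eval (m : ℚ) : ℚ) : ℝ)| = |((D.eval (m : ℤ) : ℤ) : ℝ)| := by
      intro m
      rw [rat_eval]
      norm_cast
    have hone : ∀ (u : ℚ[X]) (e : ℕ), u.natDegree + e ≤ e * D.natDegree →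
        ∃ C : ℝ, 0 < C ∧ ∃ N : ℕ, ∀ m ≥ N, |((u.eval (m : ℚ) : ℚ) : ℝ)| * (m : ℝ) ^ e ≤
          C * |((D.eval (m : ℤ) : ℤ) : ℝ)| ^ e := by
      intro u e hu
      obtain ⟨C, hC, N, hN⟩ := Hy.grow (u * X ^ e) (rat D ^ e) (pow_ne_zero e hD') (by
        rw [natDegree_pow, rat_deg]
        refine (natDegree_mul_le_of_le le_rfl (natDegree_X_pow_le e)).trans hu)
      refine ⟨C, hC, N, fun m hm => ?_⟩
      have h1 := hN m hm
      rw [eval_mul, eval_pow, eval_pow, eval_X] at h1
      push_cast at h1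
      rw [abs_mul, abs_pow, abs_pow, hrDe, abs_of_nonneg (Nat.cast_nonneg m : (0 : ℝ) ≤ m)] at h1
      exact h1
    have hdv := fun p (hp : p ∈ P) => (Hy.dav (rat D) p.1 p.2 hD' (hPe' p hp)).1 (by
      rw [rat_deg]
      exact hd)
    simp only [rat_deg] at hdv
    obtain ⟨K1, hK1, N1, hN1⟩ := glue T hT (fun m => |(x m : ℝ)| * (m : ℝ) ^ 2)
      (fun m => |((D.eval (m : ℤ) : ℤ) : ℝ)| ^ 2) (fun m => by positivity) (by
      intro a
      obtain ⟨p, hp, N, hN⟩ := hcl a
      obtain ⟨C, hC, N', hN'⟩ := hone p.1 2 (hdv p hp).1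
      refine ⟨C, hC, max N N', fun m hm hma => ?_⟩
      have h1 := hN' m (le_trans (le_max_right _ _) hm)
      rw [← (hN m (le_trans (le_max_left _ _) hm) hma).1] at h1
      exact_mod_cast h1)
    obtain ⟨K2, hK2, N2, hN2⟩ := glue T hT (fun m => |(y m : ℝ)| * (m : ℝ) ^ 3)
      (fun m => |((D.eval (m : ℤ) : ℤ) : ℝ)| ^ 3) (fun m => by positivity) (by
      intro a
      obtain ⟨p, hp, N, hN⟩ := hcl a
      obtain ⟨C, hC, N', hN'⟩ := hone p.2 3 (hdv p hp).2
      refine ⟨C, hC, max N N', fun m hm hma => ?_⟩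
      have h1 := hN' m (le_trans (le_max_right _ _) hm)
      rw [← (hN m (le_trans (le_max_left _ _) hm) hma).2] at h1
      exact_mod_cast h1)
    -- the value of `D` is not zero for large `m`
    obtain ⟨C0, hC0, N0, hN0⟩ := Hy.grow X (rat D) hD' (by
      rw [natDegree_X, rat_deg]
      exact hd)
    have hD1 : ∀ m ≥ max N0 1, 1 ≤ |((D.eval (m : ℤ) : ℤ) : ℝ)| := by
      intro m hm
      have h1 := hN0 m (le_trans (le_max_left _ _) hm)
      rw [hrDe, eval_X, Rat.cast_natCast, abs_of_nonneg (Nat.cast_nonneg m : (0 : ℝ) ≤ m)] at h1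
      have h2 : 1 ≤ m := le_trans (le_max_right _ _) hm
      have h3 : D.eval (m : ℤ) ≠ 0 := by
        intro h0
        rw [h0] at h1
        simp only [Int.cast_zero, abs_zero, mul_zero] at h1
        have : (1 : ℝ) ≤ m := by exact_mod_cast h2
        linarith
      have h4 : (1 : ℤ) ≤ |D.eval (m : ℤ)| := Int.one_le_abs h3
      exact_mod_cast h4
    refine ⟨⟨max K1 K2, max N1 N2, fun m hm => ⟨?_, ?_⟩⟩, fun C hC => ?_⟩
    · exact (hN1 m (le_trans (le_max_left _ _) hm)).trans
        (mul_le_mul_of_nonneg_right (le_max_left _ _) (by positivity))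
    · exact (hN2 m (le_trans (le_max_right _ _) hm)).trans
        (mul_le_mul_of_nonneg_right (le_max_right _ _) (by positivity))
    · refine ⟨max (max N1 N2) (max (max N0 1) ⌈(K1 + K2) / C⌉₊), fun m hm => ?_⟩
      have m1 := hN1 m (le_trans ((le_max_left _ _).trans (le_max_left _ _)) hm)
      have m2 := hN2 m (le_trans ((le_max_right _ _).trans (le_max_left _ _)) hm)
      have m3 := hD1 m (le_trans ((le_max_left _ _).trans (le_max_right _ _)) hm)
      have m4 : (K1 + K2) / C ≤ m := (Nat.le_ceil _).trans (by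
        exact_mod_cast (le_trans ((le_max_right _ _).trans (le_max_right _ _)) hm))
      have m5 : K1 + K2 ≤ m * C := (div_le_iff₀ hC).1 m4
      have m6 : (1 : ℝ) ≤ m := by
        have : 1 ≤ m := le_trans ((le_max_right _ _).trans ((le_max_left _ _).trans
          (le_max_right _ _))) hm
        exact_mod_cast this
      set E := |((D.eval (m : ℤ) : ℤ) : ℝ)| with hE
      have hE0 : 0 ≤ E := abs_nonneg _
      have q1 : E ^ 2 ≤ E ^ 3 := pow_le_pow_right₀ m3 (by norm_num)
      have key : ∀ (z : ℝ) (K : ℝ) (e : ℕ), 1 ≤ e → 0 ≤ z → K ≤ K1 + K2 → z * (m : ℝ) ^ e ≤ K * E ^ 3 →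
          z ≤ C * E ^ 3 := by
        intro z K e he hz hK h
        have h1 : z * (m : ℝ) ≤ z * (m : ℝ) ^ e := by
          refine mul_le_mul_of_nonneg_left ?_ hz
          calc (m : ℝ) = (m : ℝ) ^ 1 := (pow_one _).symm
            _ ≤ (m : ℝ) ^ e := pow_le_pow_right₀ m6 he
        have h2 : K * E ^ 3 ≤ (m * C) * E ^ 3 :=
          mul_le_mul_of_nonneg_right (hK.trans m5) (by positivity)
        have h3 : z * (m : ℝ) ≤ (C * E ^ 3) * m := by
          calc z * (m : ℝ) ≤ (m * C) * E ^ 3 := h1.trans (h.trans h2)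
            _ = _ := by ring
        exact le_of_mul_le_mul_right h3 (by linarith)
      refine max_le (key _ K1 2 (by norm_num) (abs_nonneg _) (by linarith)
        (m1.trans (mul_le_mul_of_nonneg_left q1 hK1.le)))
        (key _ K2 3 (by norm_num) (abs_nonneg _) (by linarith) m2)
  · have hdv := fun p (hp : p ∈ P) => (Hy.dav (rat D) p.1 p.2 hD' (hPe' p hp)).2 (by
      rw [rat_deg]
      exact hd)
    have hfin : ∀ (z : ℕ → ℤ) (w : ℚ[X] × ℚ[X] → ℚ[X]), (∀ p ∈ P, (w p).natDegree = 0) →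
        (∀ a : ℕ, ∃ p ∈ P, ∃ N : ℕ, ∀ m ≥ N, m % T = a % T → (z m : ℚ) = (w p).eval (m : ℚ)) →
        (Set.range z).Finite := by
      intro z w hw h
      choose p hp N hN using h
      set M := (Finset.range T).sup N with hM
      have h1 : Set.range z ⊆ (z '' (Set.Iio M)) ∪
          ((fun z : ℤ => (z : ℚ)) ⁻¹' ((fun p => (w p).coeff 0) '' (P : Set (ℚ[X] × ℚ[X])))) := by
        rintro _ ⟨m, rfl⟩
        by_cases hm : m < M
        · exact Or.inl ⟨m, hm, rfl⟩
        · right
          have hmT : m % T ∈ Finset.range T := Finset.mem_range.2 (Nat.mod_lt _ (by omega))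
          have h2 := hN (m % T) m (le_trans (Finset.le_sup (f := N) hmT) (not_lt.1 hm))
            (by rw [Nat.mod_mod])
          refine ⟨p (m % T), hp _, ?_⟩
          simp only
          rw [h2]
          conv_rhs => rw [eq_C_of_natDegree_eq_zero (hw _ (hp (m % T)))]
          rw [eval_C]
      refine Set.Finite.subset (Set.Finite.union ((Set.finite_Iio M).image z) ?_) h1
      exact Set.Finite.preimage (Int.cast_injective.injOn) (P.finite_toSet.image _)
    refine ⟨hfin x (fun p => p.1) (fun p hp => (hdv p hp).1) (fun a => ?_),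
      hfin y (fun p => p.2) (fun p hp => (hdv p hp).2) (fun a => ?_)⟩
    · obtain ⟨p, hp, N, hN⟩ := hcl a
      exact ⟨p, hp, N, fun m hm hma => (hN m hm hma).1⟩
    · obtain ⟨p, hp, N, hN⟩ := hcl a
      exact ⟨p, hp, N, fun m hm hma => (hN m hm hma).2⟩

end Pool.Agent.Results.MP_f2148a_nt.RecursiveFamilies
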