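import Pool.Agent.Run7.h430.TW.Kit
import Pool.Agent.Results.MP_f2148a_nt.AlmostAllK
import Pool.Agent.Results.MP_f2148a_nt.SparseViolations

/-!
# Hall's conjecture along almost all orbits of Euler's function, up to exponential heights

Let `φ_k` be the `k`-th iterate of Euler's function, `φ_0(m) = m`. Let `f` be a positive multiplicative function of at most
polynomial growth such that `f p ≤ M p` for the large primes `p`, with different values at different large primes; for example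
the identity, Euler's function or the sum of the divisors. Let `α > 0`, `1 ≤ e < 100 / 99` and `κ < 1 - 99 e / 100`.
There is `K(m)` tending to infinity such that for almost all `m`, for ALL `k ≤ K(m)`, with `v = f(φ_k(m))`, for ALL
`1 ≤ a ≤ K(m)` and ALL integers `D ≠ 0` with `||D| - a α v^e| ≤ K(m) v^κ`, the equation `y ^ 2 = x ^ 3 + D` has NO integral
solution with `|x| ≤ exp (|D| ^ (1 / 10000))`. For example (`κ = 0`) for all `D = ± (a φ_k(m) + h)` with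
`k, a, |h| ≤ K(m)`. So Hall's inequality can fail for these `D`, with whatever constants, only at exponentially large heights.
Part (2): if `A ≥ 2` and `e (A / 4 + 1 / 6) + κ < 1` (for example `A = 2`, `e = 1`, `κ < 1 / 3`), then, for every `C > 0`, for all
`D` in the same windows all integral points with `|x| ≤ |D| ^ A` satisfy Hall's inequality `max (|x|, |y|) ≤ C |D| ^ 3`.
More generally `G v` takes the place of `α v^e`, where `G` is any function with steps bounded below by a positive constant and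
growth at most `v^e`.

The iterates of Euler's function are not multiplicative, and the values `φ_k(m)`, `m ≤ N`, form a thin set and are taken with
very large multiplicities; so this does not follow from the number `O (X ^ (99 / 100))` of the `D` with `|D| ≤ X` for which
there is a solution (`AlmostAllK` of this problem, starting files), which is used here; for (2) `SparseViolations` is used. The tool is `Pool.Agent.N760.IT`
(starting files), in the form of `Run7/h430/TW/Kit` (multiples and enlarged windows).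
-/

set_option autoImplicit false

namespace Pool.Agent.Results.MP_f2148a_nt.TotientOrbits

open Finset Filter Topology

/-- A positive multiplicative function of at most polynomial growth, at most `M p` at the large primes `p` and with different
values at different large primes. -/
structure Moderate (f : ℕ → ℕ) : Prop where
  mul : ∀ m n : ℕ, Nat.Coprime m n → f (m * n) = f m * f n
  pos : ∀ m : ℕ, 1 ≤ m → 1 ≤ f m
  growth : ∃ C D : ℕ, ∀ m : ℕ, 1 ≤ m → f m ≤ C * m ^ D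
  prime : ∃ P M : ℕ, ∀ p : ℕ, P ≤ p → p.Prime → f p ≤ M * p ∧ ∀ q : ℕ, P ≤ q → q.Prime → f q = f p → q = p

/-- The steps of `G` are at least a positive constant, and `G` grows at most like `v ^ d`, `d ≥ 1`. -/
structure Expanding (G : ℕ → ℝ) (d : ℝ) : Prop where
  one_le : 1 ≤ d
  step : ∃ a : ℝ, 0 < a ∧ ∀ v : ℕ, 1 ≤ v → a ≤ G (v + 1) - G v
  growth : ∃ C : ℝ, ∀ v : ℕ, 1 ≤ v → G v ≤ C * (v : ℝ) ^ d

open Classical in
/-- The proportion of the positive integers `m ≤ N` without the property `P` tends to `0`. -/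
def AlmostAll (P : ℕ → Prop) : Prop :=
  Tendsto (fun N : ℕ => (((Icc 1 N).filter (fun m => ¬ P m)).card : ℝ) / N) atTop (𝓝 0)

/-- the value of `f` at the `k`-th iterate of Euler's function -/
def orb (f : ℕ → ℕ) (k m : ℕ) : ℕ := f (Nat.totient^[k] m)

theorem lm_of {f : ℕ → ℕ} (hf : Moderate f) : Pool.Agent.N733.TG.LM f := ⟨hf.mul, hf.pos, hf.growth, hf.prime⟩

theorem of_lm {f : ℕ → ℕ} (hf : Pool.Agent.N733.TG.LM f) : Moderate f := ⟨hf.mul, hf.pos, hf.growth, hf.prime⟩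

theorem ex_of {G : ℕ → ℝ} {d : ℝ} (h : Expanding G d) : Pool.Agent.N733.TG.Expanding G d := ⟨h.one_le, h.step, h.growth⟩

/-- the `D` with an integral point of at most exponential height -/
def E : Set ℤ := {D | D ≠ 0 ∧ ∃ x y : ℤ, y ^ 2 = x ^ 3 + D ∧ |(x : ℝ)| ≤ Real.exp (|(D : ℝ)| ^ ((1 : ℝ) / 10000))}

theorem fin0 (X : ℝ) : {D : ℤ | |(D : ℝ)| ≤ X}.Finite := by
  refine (Set.finite_Icc (-⌈X⌉) ⌈X⌉).subset (fun D hD => ?_)
  have h1 : |(D : ℝ)| ≤ X := hD
  rw [abs_le] at h1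
  have h2 := Int.le_ceil X
  constructor
  · have : ((-⌈X⌉ : ℤ) : ℝ) ≤ (D : ℝ) := by push_cast; linarith [h1.1]
    exact_mod_cast this
  · have : (D : ℝ) ≤ ((⌈X⌉ : ℤ) : ℝ) := by linarith [h1.2]
    exact_mod_cast this

theorem count : ∃ C : ℝ, ∀ X : ℝ, 1 ≤ X → {D : ℤ | D ∈ E ∧ |(D : ℝ)| ≤ X}.Finite ∧
    ({D : ℤ | D ∈ E ∧ |(D : ℝ)| ≤ X}.ncard : ℝ) ≤ C * X ^ ((99 : ℝ) / 100) := by
  obtain ⟨M, hM⟩ := Pool.Agent.Results.MP_f2148a_nt.AlmostAllK.result
  refine ⟨M, fun X hX => ?_⟩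
  refine ⟨(fin0 X).subset (fun D hD => hD.2), le_trans ?_ (hM X hX)⟩
  apply Nat.cast_le.2
  refine Set.ncard_le_ncard ?_ ((fin0 X).subset (fun D hD => hD.2.1))
  rintro D ⟨⟨h0, x, y, hxy, hx⟩, hD⟩
  refine ⟨h0, hD, x, y, hxy, hx.trans (Real.exp_le_exp.2 ?_)⟩
  exact Real.rpow_le_rpow (abs_nonneg _) hD (by norm_num)

/-- the `D` with an integral point of polynomial height violating Hall's inequality -/
def E₂ (C A : ℝ) : Set ℤ :=
  {D | D ≠ 0 ∧ ∃ x y : ℤ, y ^ 2 = x ^ 3 + D ∧ |(x : ℝ)| ≤ |(D : ℝ)| ^ A ∧ C * |(D : ℝ)| ^ 3 < max |(x : ℝ)| |(y : ℝ)|}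

theorem count₂ {C A : ℝ} (hC : 0 < C) (hA : 2 ≤ A) (ε : ℝ) (hε : 0 < ε) : ∃ M : ℝ, ∀ X : ℝ, 1 ≤ X →
    {D : ℤ | D ∈ E₂ C A ∧ |(D : ℝ)| ≤ X}.Finite ∧
      ({D : ℤ | D ∈ E₂ C A ∧ |(D : ℝ)| ≤ X}.ncard : ℝ) ≤ M * X ^ (A / 4 + 1 / 6 + ε) := by
  obtain ⟨M, hM⟩ := Pool.Agent.Results.MP_f2148a_nt.SparseViolations.result C A ε hC hA hε
  refine ⟨M, fun X hX => ⟨(fin0 X).subset (fun D hD => hD.2), le_trans ?_ (hM X hX)⟩⟩
  apply Nat.cast_le.2
  refine Set.ncard_le_ncard ?_ ((fin0 X).subset (fun D hD => hD.2.1))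
  rintro D ⟨⟨h0, x, y, hxy, hx, hv⟩, hD⟩
  exact ⟨h0, hD, x, y, hxy, hv, hx.trans (Real.rpow_le_rpow (abs_nonneg _) hD (by linarith))⟩

/-- **Hall's conjecture along orbits of Euler's function.** -/
theorem result :
    (∀ f : ℕ → ℕ, Moderate f → ∀ (G : ℕ → ℝ) (e : ℝ), Expanding G e → ∀ κ : ℝ, 0 ≤ κ →
      -- (1) no points at all up to exponential heights
      (e * (99 / 100) + κ < 1 → ∃ K : ℕ → ℕ, Tendsto K atTop atTop ∧
      AlmostAll (fun m => ∀ k ≤ K m, ∀ a : ℕ, 1 ≤ a → a ≤ K m → ∀ D : ℤ, D ≠ 0 →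
        |(|D| : ℝ) - a * G (orb f k m)| ≤ K m * (orb f k m : ℝ) ^ κ →
        ∀ x y : ℤ, y ^ 2 = x ^ 3 + D → Real.exp ((|D| : ℝ) ^ ((1 : ℝ) / 10000)) < |(x : ℝ)|)) ∧
      -- (2) Hall's inequality in wider windows
      (∀ C A : ℝ, 0 < C → 2 ≤ A → e * (A / 4 + 1 / 6) + κ < 1 → ∃ K : ℕ → ℕ, Tendsto K atTop atTop ∧
      AlmostAll (fun m => ∀ k ≤ K m, ∀ a : ℕ, 1 ≤ a → a ≤ K m → ∀ D : ℤ, D ≠ 0 →
        |(|D| : ℝ) - a * G (orb f k m)| ≤ K m * (orb f k m : ℝ) ^ κ →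
        ∀ x y : ℤ, y ^ 2 = x ^ 3 + D → |(x : ℝ)| ≤ (|D| : ℝ) ^ A → max |(x : ℝ)| |(y : ℝ)| ≤ C * (|D| : ℝ) ^ 3))) ∧
    (Moderate (fun m => m) ∧ Moderate Nat.totient ∧ Moderate (fun m => ∑ d ∈ m.divisors, d)) ∧
    ∀ α e : ℝ, 0 < α → 1 ≤ e → Expanding (fun v => α * (v : ℝ) ^ e) e := by
  refine ⟨fun f hf G e hG κ hκ => ⟨fun h1 => ?_, fun C A hC hA h1 => ?_⟩,
    ⟨of_lm Pool.Agent.N760.IT.lm_id, of_lm Pool.Agent.N733.TG.lm_totient, of_lm Pool.Agent.N733.TG.lm_sigma⟩,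
    fun α d hα hd => ?_⟩
  · obtain ⟨K, hK, h2⟩ := Run7.h430.TW.kit' E (fun D : ℤ => |(D : ℝ)|) (lm_of hf) (ex_of hG) (s := 99 / 100) (κ := κ)
      (by norm_num) hκ h1 count
    refine ⟨K, hK, Pool.Agent.N826.IT.Orb.almostAll_mono h2 (fun m hm k hk a ha1 ha D hD hw x y hxy => ?_)⟩
    by_contra hcon
    rw [not_lt] at hcon
    exact absurd hw (not_le.2 (hm k hk a ha1 ha D ⟨hD, x, y, hxy, hcon⟩))
  · obtain ⟨K, hK, h2⟩ := Run7.h430.TW.kit (E₂ C A) (fun D : ℤ => |(D : ℝ)|) (lm_of hf) (ex_of hG) (s := A / 4 + 1 / 6)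
      (κ := κ) (by linarith) hκ h1 (fun ε hε => count₂ hC hA ε hε)
    refine ⟨K, hK, Pool.Agent.N826.IT.Orb.almostAll_mono h2 (fun m hm k hk a ha1 ha D hD hw x y hxy hx => ?_)⟩
    by_contra hcon
    rw [not_le] at hcon
    exact absurd hw (not_le.2 (hm k hk a ha1 ha D ⟨hD, x, y, hxy, hx, hcon⟩))
  · obtain ⟨h1, h2, h3⟩ := Pool.Agent.N733.TG.expanding_pow hα hd
    exact ⟨h1, h2, h3⟩

end Pool.Agent.Results.MP_f2148a_nt.TotientOrbits
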